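import Pool.Agent.Lib.MP_3ee548_nt.RS.Iface

set_option autoImplicit false

open scoped BigOperators

namespace Pool.Agent.Lib.MP_3ee548_nt.RS.H02

theorem norm_e (x : ℝ) : ‖e x‖ = 1 := by
  unfold e; exact Complex.norm_exp_ofReal_mul_I _

theorem exp_geom (z r : ℝ) (hz : 0 < z) (hr : 1 < r) :
    Real.exp (-(z + 1 / z)) ≤ (1 + r) / (r - 1) * (r * z / (1 + r * z) - z / (1 + z)) := by
  have hr0 : 0 < r - 1 := by linarith
  have h1 : (1 + r) / (r - 1) * (r * z / (1 + r * z) - z / (1 + z))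
      = (1 + r) * z / ((1 + z) * (1 + r * z)) := by
    have : 1 + r * z ≠ 0 := by positivity
    have : 1 + z ≠ 0 := by positivity
    field_simp
    ring
  rw [h1]
  have hs : 0 < z + 1 / z := by positivity
  have h2 : Real.exp (-(z + 1 / z)) ≤ 1 / (1 + (z + 1 / z)) := by
    rw [Real.exp_neg, ← one_div]
    apply one_div_le_one_div_of_le (by linarith)
    have := Real.add_one_le_exp (z + 1 / z)
    linarith
  have h3 : 1 / (1 + (z + 1 / z)) = z / (z ^ 2 + z + 1) := by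
    field_simp
    ring
  rw [h3] at h2
  refine h2.trans ?_
  rw [div_le_div_iff₀ (by positivity) (by positivity)]
  have : 0 ≤ z * ((1 + r) * (z ^ 2 + z + 1) - (1 + z) * (1 + r * z)) := by
    apply mul_nonneg hz.le
    nlinarith [sq_nonneg z]
  nlinarith [this]

theorem sum_exp_geom (z r : ℝ) (hz : 0 < z) (hr : 1 < r) (J : ℕ) :
    ∑ j ∈ Finset.range J, Real.exp (-(z * r ^ j + 1 / (z * r ^ j))) ≤ (1 + r) / (r - 1) := by
  have hr0 : 0 < r - 1 := by linarith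
  have hrp : 0 < r := by linarith
  have h1 : ∑ j ∈ Finset.range J, Real.exp (-(z * r ^ j + 1 / (z * r ^ j)))
      ≤ ∑ j ∈ Finset.range J, (1 + r) / (r - 1) *
        (z * r ^ (j + 1) / (1 + z * r ^ (j + 1)) - z * r ^ j / (1 + z * r ^ j)) := by
    apply Finset.sum_le_sum
    intro j _
    have hzj : 0 < z * r ^ j := by positivity
    have := exp_geom (z * r ^ j) r hzj hr
    have h2 : r * (z * r ^ j) = z * r ^ (j + 1) := by ring
    rw [h2] at this
    exact this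
  refine h1.trans ?_
  rw [← Finset.mul_sum, Finset.sum_range_sub (fun j => z * r ^ j / (1 + z * r ^ j)) J]
  have h3 : z * r ^ J / (1 + z * r ^ J) ≤ 1 := by
    rw [div_le_one (by positivity)]
    linarith
  have h4 : 0 ≤ z * r ^ 0 / (1 + z * r ^ 0) := by positivity
  have h5 : 0 ≤ (1 + r) / (r - 1) := by positivity
  calc (1 + r) / (r - 1) * (z * r ^ J / (1 + z * r ^ J) - z * r ^ 0 / (1 + z * r ^ 0))
      ≤ (1 + r) / (r - 1) * 1 := by
        apply mul_le_mul_of_nonneg_left _ h5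
        linarith
    _ = (1 + r) / (r - 1) := by ring

theorem H_nonneg (z : ℝ) (hz : 0 < z) : 0 ≤ H z := by
  unfold H h0; positivity

theorem H_le (z : ℝ) (hz : 0 < z) : H z ≤ Real.exp (-(Real.pi * z)) := by
  unfold H h0
  have hw : z ^ (-(3 / 2) : ℝ) ≤ Real.exp (Real.pi * (1 / z)) := by
    have h1 : z ^ (-(3 / 2) : ℝ) = (1 / z) ^ (3 / 2 : ℝ) := by
      rw [Real.rpow_neg hz.le, one_div, Real.inv_rpow hz.le]
    rw [h1]
    have h2 : (1 / z) ≤ Real.exp (1 / z) := by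
      have := Real.add_one_le_exp (1 / z); linarith
    have h3 : (1 / z) ^ (3 / 2 : ℝ) ≤ (Real.exp (1 / z)) ^ (3 / 2 : ℝ) :=
      Real.rpow_le_rpow (by positivity) h2 (by norm_num)
    refine h3.trans ?_
    rw [← Real.exp_mul]
    apply Real.exp_le_exp.mpr
    have : 0 < 1 / z := by positivity
    nlinarith [Real.pi_gt_three]
  calc z ^ (-(3 / 2) : ℝ) * Real.exp (-Real.pi * (z + 1 / z))
      ≤ Real.exp (Real.pi * (1 / z)) * Real.exp (-Real.pi * (z + 1 / z)) :=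
        mul_le_mul_of_nonneg_right hw (Real.exp_pos _).le
    _ = Real.exp (-(Real.pi * z)) := by
        rw [← Real.exp_add]; congr 1; ring

/-- the dyadic decomposition. -/
theorem sum_blk {M : Type*} [AddCommMonoid M] (F : ℕ → M) (J : ℕ) :
    ∑ m ∈ Finset.Ico (1 : ℕ) (2 ^ J), F m = ∑ j ∈ Finset.range J, ∑ m ∈ blk j, F m := by
  induction J with
  | zero => simp
  | succ n ih =>
    rw [Finset.sum_range_succ, ← ih]
    unfold blk
    rw [Finset.sum_Ico_consecutive F (Nat.one_le_two_pow) (Nat.pow_le_pow_right (by norm_num) (by omega))]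

theorem geom_tail (x : ℝ) (hx : 0 < x) : 1 / (1 - Real.exp (-x)) ≤ 1 + 1 / x := by
  have h1 : Real.exp (-x) ≤ 1 / (1 + x) := by
    rw [Real.exp_neg, ← one_div]
    apply one_div_le_one_div_of_le (by linarith)
    have := Real.add_one_le_exp x
    linarith
  have h2 : x / (1 + x) ≤ 1 - Real.exp (-x) := by
    have : x / (1 + x) = 1 - 1 / (1 + x) := by field_simp; ring
    rw [this]; linarith
  have h3 : 0 < x / (1 + x) := by positivity
  calc 1 / (1 - Real.exp (-x)) ≤ 1 / (x / (1 + x)) := one_div_le_one_div_of_le h3 h2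
    _ = 1 + 1 / x := by field_simp; ring

/-- the weighted sum of reciprocals is, up to `1`, the complete sum. -/
theorem sb_tail (k : ℕ) (xi : ℝ) :
    ‖(∑' n : ℕ, ((H (((n : ℝ) + 1) / (2 : ℝ) ^ k) : ℝ) : ℂ) * e (xi * (1 / ((n : ℝ) + 1)))) - SB k xi‖
      ≤ 1 := by
  set K : ℝ := (2 : ℝ) ^ k with hK
  have hK1 : 1 ≤ K := one_le_pow₀ (by norm_num)
  have hK0 : 0 < K := by linarith
  set f : ℕ → ℂ := fun n => ((H (((n : ℝ) + 1) / K) : ℝ) : ℂ) * e (xi * (1 / ((n : ℝ) + 1))) with hf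
  set q : ℝ := Real.exp (-(Real.pi / K)) with hq
  have hq0 : 0 < q := Real.exp_pos _
  have hq1 : q < 1 := by
    rw [hq]
    have h0 : 0 < Real.pi / K := div_pos Real.pi_pos hK0
    have := Real.exp_lt_exp.mpr (show -(Real.pi / K) < 0 by linarith)
    rwa [Real.exp_zero] at this
  have hfn : ∀ n : ℕ, ‖f n‖ ≤ q ^ (n + 1) := by
    intro n
    have hz : 0 < ((n : ℝ) + 1) / K := by positivity
    rw [hf]
    simp only
    rw [norm_mul, norm_e, mul_one, Complex.norm_real, Real.norm_of_nonneg (H_nonneg _ hz)]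
    refine (H_le _ hz).trans ?_
    rw [hq, ← Real.exp_nat_mul]
    apply Real.exp_le_exp.mpr
    push_cast
    have : Real.pi * (((n : ℝ) + 1) / K) = ((n : ℝ) + 1) * (Real.pi / K) := by ring
    rw [this]; linarith
  have hgs : Summable (fun n : ℕ => q ^ (n + 1)) :=
    (summable_nat_add_iff 1).mpr (summable_geometric_of_lt_one hq0.le hq1)
  have hfs : Summable f := Summable.of_norm_bounded hgs hfn
  have hM : 1 ≤ 2 ^ (2 * k + 4) := Nat.one_le_two_pow
  have hSB : SB k xi = ∑ n ∈ Finset.range (2 ^ (2 * k + 4) - 1), f n := by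
    unfold SB
    rw [Finset.sum_Ico_eq_sum_range]
    apply Finset.sum_congr rfl
    intro i _
    rw [hf]
    simp only [rcp]
    push_cast
    rw [add_comm (1 : ℝ) (i : ℝ)]
  rw [hSB]
  have hsplit := hfs.sum_add_tsum_nat_add (2 ^ (2 * k + 4) - 1)
  have h1 : (∑' n : ℕ, f n) - ∑ n ∈ Finset.range (2 ^ (2 * k + 4) - 1), f n
      = ∑' n : ℕ, f (n + (2 ^ (2 * k + 4) - 1)) := by
    rw [← hsplit]; ring
  rw [h1]
  have hgs2 : Summable (fun n : ℕ => q ^ (n + 2 ^ (2 * k + 4))) :=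
    (summable_nat_add_iff (2 ^ (2 * k + 4))).mpr (summable_geometric_of_lt_one hq0.le hq1)
  have h2 : ‖∑' n : ℕ, f (n + (2 ^ (2 * k + 4) - 1))‖ ≤ ∑' n : ℕ, q ^ (n + 2 ^ (2 * k + 4)) := by
    apply tsum_of_norm_bounded hgs2.hasSum
    intro n
    have := hfn (n + (2 ^ (2 * k + 4) - 1))
    have h3 : n + (2 ^ (2 * k + 4) - 1) + 1 = n + 2 ^ (2 * k + 4) := by omega
    rw [h3] at this
    exact this
  refine h2.trans ?_
  have h4 : ∑' n : ℕ, q ^ (n + 2 ^ (2 * k + 4)) = q ^ (2 ^ (2 * k + 4)) * (1 / (1 - q)) := by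
    simp_rw [pow_add]
    rw [tsum_mul_right, tsum_geometric_of_lt_one hq0.le hq1]
    ring
  rw [h4]
  have h5 : 1 / (1 - q) ≤ 1 + 1 / (Real.pi / K) := by
    rw [hq]; exact geom_tail _ (div_pos Real.pi_pos hK0)
  have h6 : 1 + 1 / (Real.pi / K) ≤ Real.exp K := by
    have h7 : 1 / (Real.pi / K) ≤ K := by
      rw [one_div_div, div_le_iff₀ Real.pi_pos]
      nlinarith [Real.pi_gt_three]
    have := Real.add_one_le_exp K
    linarith
  have h8 : q ^ (2 ^ (2 * k + 4)) = Real.exp (-(16 * Real.pi * K)) := by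
    rw [hq, ← Real.exp_nat_mul]
    congr 1
    push_cast
    have : (2 : ℝ) ^ (2 * k + 4) = 16 * K ^ 2 := by
      rw [hK, pow_add, pow_mul']; norm_num; ring
    rw [this]; field_simp
  rw [h8]
  calc Real.exp (-(16 * Real.pi * K)) * (1 / (1 - q))
      ≤ Real.exp (-(16 * Real.pi * K)) * Real.exp K :=
        mul_le_mul_of_nonneg_left (h5.trans h6) (Real.exp_pos _).le
    _ = Real.exp (-(16 * Real.pi * K) + K) := by rw [← Real.exp_add]
    _ ≤ Real.exp 0 := by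
        apply Real.exp_le_exp.mpr
        nlinarith [Real.pi_gt_three]
    _ = 1 := Real.exp_zero

theorem norm_EE (N X mu : ℝ) : ‖EE N X mu‖ = h0 (N * YY N mu / X) := by
  unfold EE
  rw [norm_mul, norm_e, mul_one, Complex.norm_real, Real.norm_of_nonneg]
  unfold h0; positivity

theorem YY_ge (N mu : ℝ) (hmu : 0 ≤ mu) : 2 * Real.sqrt mu ≤ YY N mu := by
  unfold YY
  have h1 : 2 * mu ≤ Real.sqrt (4 * mu ^ 2 + 1 / N ^ 2) := by
    apply Real.le_sqrt_of_sq_le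
    have : 0 ≤ 1 / N ^ 2 := by positivity
    nlinarith
  have h2 : 2 * Real.sqrt mu = Real.sqrt (4 * mu) := by
    rw [show (4 : ℝ) * mu = 2 ^ 2 * mu by norm_num, Real.sqrt_mul (by norm_num), Real.sqrt_sq (by norm_num)]
  rw [h2]
  apply Real.sqrt_le_sqrt
  linarith

/-- far terms of the dual sum. -/
theorem EE_far (K X xi m : ℝ) (hK : 1 ≤ K) (hX : 0 < X) (hxi : 0 < xi) (hxi2 : xi ≤ 2 * K ^ 3)
    (hXt : X ≤ 1.28 * (2 * Real.sqrt xi)) (hm : 16 * K ^ 2 ≤ m) :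
    ‖EE K X m‖ ≤ 7 / m ^ 2 := by
  have hm0 : 0 < m := by nlinarith
  rw [norm_EE]
  set z : ℝ := K * YY K m / X with hz
  have hY : 2 * Real.sqrt m ≤ YY K m := YY_ge K m hm0.le
  have hsm : 0 < Real.sqrt m := Real.sqrt_pos.mpr hm0
  have hsx : 0 < Real.sqrt xi := Real.sqrt_pos.mpr hxi
  have hY0 : 0 < YY K m := by linarith
  have hK0 : 0 < K := by linarith
  have hz0 : 0 < z := by rw [hz]; positivity
  have hz1 : K * Real.sqrt m / (1.28 * Real.sqrt xi) ≤ z := by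
    rw [hz, div_le_div_iff₀ (by positivity) hX]
    have h1 : K * Real.sqrt m * X ≤ K * Real.sqrt m * (1.28 * (2 * Real.sqrt xi)) :=
      mul_le_mul_of_nonneg_left hXt (by positivity)
    have h2 : K * (2 * Real.sqrt m) * (1.28 * Real.sqrt xi) ≤ K * YY K m * (1.28 * Real.sqrt xi) := by
      apply mul_le_mul_of_nonneg_right _ (by positivity)
      exact mul_le_mul_of_nonneg_left hY hK0.le
    nlinarith [h1, h2]
  have hz2 : m / (3.2768 * K) ≤ z ^ 2 := by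
    have h1 : (K * Real.sqrt m / (1.28 * Real.sqrt xi)) ^ 2 ≤ z ^ 2 :=
      pow_le_pow_left₀ (by positivity) hz1 2
    have h2 : (K * Real.sqrt m / (1.28 * Real.sqrt xi)) ^ 2 = K ^ 2 * m / (1.6384 * xi) := by
      rw [div_pow, mul_pow, mul_pow, Real.sq_sqrt hm0.le, Real.sq_sqrt hxi.le]; norm_num
    rw [h2] at h1
    refine le_trans ?_ h1
    rw [div_le_div_iff₀ (by positivity) (by positivity)]
    have h3 : m * xi ≤ m * (2 * K ^ 3) := mul_le_mul_of_nonneg_left hxi2 hm0.le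
    nlinarith [h3]
  have hz4 : m ≤ z ^ 4 := by
    have h1 : (m / (3.2768 * K)) ^ 2 ≤ (z ^ 2) ^ 2 := pow_le_pow_left₀ (by positivity) hz2 2
    have h2 : (z ^ 2) ^ 2 = z ^ 4 := by ring
    rw [h2] at h1
    refine le_trans ?_ h1
    rw [div_pow, le_div_iff₀ (by positivity)]
    have h3 : m * (16 * K ^ 2) ≤ m * m := mul_le_mul_of_nonneg_left hm hm0.le
    nlinarith [h3, mul_pos hm0 (pow_pos hK0 2)]
  have hz8 : m ^ 2 ≤ z ^ 8 := by
    have h1 : m ^ 2 ≤ (z ^ 4) ^ 2 := pow_le_pow_left₀ hm0.le hz4 2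
    have h2 : (z ^ 4) ^ 2 = z ^ 8 := by ring
    rw [h2] at h1; exact h1
  have h1 : h0 z ≤ Real.exp (-(3 * z)) := by
    unfold h0
    apply Real.exp_le_exp.mpr
    have : 0 < 1 / z := by positivity
    nlinarith [Real.pi_gt_three]
  refine h1.trans ?_
  have h2 := Real.pow_div_factorial_le_exp (3 * z) (by positivity) 8
  have h3 : (3 * z) ^ 8 / (Nat.factorial 8 : ℝ) = 6561 / 40320 * z ^ 8 := by
    have : (Nat.factorial 8 : ℝ) = 40320 := by norm_num [Nat.factorial]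
    rw [this, mul_pow]; norm_num; ring
  rw [h3] at h2
  rw [Real.exp_neg, ← one_div]
  have h4 : m ^ 2 / 7 ≤ Real.exp (3 * z) := by
    refine le_trans ?_ h2
    nlinarith [hz8, pow_pos hm0 2]
  calc 1 / Real.exp (3 * z) ≤ 1 / (m ^ 2 / 7) :=
        one_div_le_one_div_of_le (by positivity) h4
    _ = 7 / m ^ 2 := by rw [one_div_div]

/-- Hoelder with exponent 4. -/
theorem hoelder4 (J : ℕ) (c P : ℕ → ℝ) (hc : ∀ j, 0 ≤ c j) (hP : ∀ j, 0 ≤ P j) :
    (∑ j ∈ Finset.range J, c j * P j) ^ 4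
      ≤ (∑ j ∈ Finset.range J, c j) ^ 3 * ∑ j ∈ Finset.range J, c j * P j ^ 4 := by
  have h1 : (∑ j ∈ Finset.range J, c j * P j) ^ 2
      ≤ (∑ j ∈ Finset.range J, c j) * ∑ j ∈ Finset.range J, c j * P j ^ 2 := by
    apply Finset.sum_sq_le_sum_mul_sum_of_sq_le_mul
    · intro i _; exact hc i
    · intro i _; have := hc i; positivity
    · intro i _; apply le_of_eq; ring
  have h2 : (∑ j ∈ Finset.range J, c j * P j ^ 2) ^ 2
      ≤ (∑ j ∈ Finset.range J, c j) * ∑ j ∈ Finset.range J, c j * P j ^ 4 := by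
    apply Finset.sum_sq_le_sum_mul_sum_of_sq_le_mul
    · intro i _; exact hc i
    · intro i _; have := hc i; have := hP i; positivity
    · intro i _; apply le_of_eq; ring
  have h3 : 0 ≤ ∑ j ∈ Finset.range J, c j := Finset.sum_nonneg (fun i _ => hc i)
  have h4 : ((∑ j ∈ Finset.range J, c j * P j) ^ 2) ^ 2
      ≤ ((∑ j ∈ Finset.range J, c j) * ∑ j ∈ Finset.range J, c j * P j ^ 2) ^ 2 :=
    pow_le_pow_left₀ (sq_nonneg _) h1 2
  calc (∑ j ∈ Finset.range J, c j * P j) ^ 4 = ((∑ j ∈ Finset.range J, c j * P j) ^ 2) ^ 2 := by ring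
    _ ≤ ((∑ j ∈ Finset.range J, c j) * ∑ j ∈ Finset.range J, c j * P j ^ 2) ^ 2 := h4
    _ = (∑ j ∈ Finset.range J, c j) ^ 2 * (∑ j ∈ Finset.range J, c j * P j ^ 2) ^ 2 := by ring
    _ ≤ (∑ j ∈ Finset.range J, c j) ^ 2 *
        ((∑ j ∈ Finset.range J, c j) * ∑ j ∈ Finset.range J, c j * P j ^ 4) :=
        mul_le_mul_of_nonneg_left h2 (by positivity)
    _ = _ := by ring

theorem e_add (x y : ℝ) : e (x + y) = e x * e y := by
  unfold e
  rw [← Complex.exp_add]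
  congr 1
  push_cast
  ring

theorem e_zero : e 0 = 1 := by
  unfold e; simp

theorem Bmax_nonneg (lam : ℕ → ℝ) (k : ℕ) (t : ℝ) : 0 ≤ Bmax lam k t := by
  unfold Bmax
  apply mul_nonneg (by positivity)
  apply Finset.sum_nonneg; intro i _
  apply Finset.sum_nonneg; intro j _
  positivity

theorem caseb (h1 : DualStatement) (h2 : WbStatement) (h3 : MaxaStatement) (h4 : AbelStatement)
    (h5 : XfactStatement) : CasebStatement := by
  obtain ⟨CW, hCW, hW⟩ := h2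
  set CT : ℝ := ∑' n : ℕ, 7 / ((n : ℝ) + 1) ^ 2 with hCT
  have hCTs : Summable (fun n : ℕ => 7 / ((n : ℝ) + 1) ^ 2) := by
    have h := (summable_nat_add_iff 1).mpr (Real.summable_one_div_nat_pow.mpr (one_lt_two))
    have h' := h.mul_left 7
    refine h'.congr ?_
    intro n
    push_cast
    ring
  have hCT0 : 0 ≤ CT := tsum_nonneg (fun n => by positivity)
  refine ⟨8 * ((CT + 4) ^ 4 + CW ^ 4 * 6 ^ 3), by positivity, ?_⟩
  intro k xi hxi1 hxi2
  set K : ℝ := (2 : ℝ) ^ k with hK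
  have hK1 : 1 ≤ K := one_le_pow₀ (by norm_num)
  have hK0 : 0 < K := by linarith
  have hxi0 : 0 < xi := by linarith
  set t : ℝ := 2 * Real.sqrt xi with ht
  have hsx : 0 < Real.sqrt xi := Real.sqrt_pos.mpr hxi0
  have ht0 : 0 ≤ t := by positivity
  have ht2 : t ^ 2 = 4 * xi := by rw [ht, mul_pow, Real.sq_sqrt hxi0.le]; norm_num
  obtain ⟨hX0, hXe, htX, hKX, _, hXt⟩ := h5 K t hK0 ht0
  have hXt' := hXt (by rw [ht2]; exact hxi1)
  set X : ℝ := XX K t with hX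
  have hX1 : 1 ≤ X := by
    by_contra hcon
    push Not at hcon
    have : X ^ 2 < 1 := by nlinarith
    linarith
  obtain ⟨hEs, hD⟩ := h1 K X hK0 hX1 hKX
  have hxi4 : (X ^ 2 - K ^ 2 / X ^ 2) / 4 = xi := by rw [hXe, ht2]; ring
  rw [hxi4] at hD
  set SS : ℂ := ∑' n : ℕ, ((H (((n : ℝ) + 1) / K) : ℝ) : ℂ) * e (xi * (1 / ((n : ℝ) + 1))) with hSS
  have hta : ‖SS - SB k xi‖ ≤ 1 := by
    have := sb_tail k xi
    rw [← hK] at this
    exact this
  -- the norm of ra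
  have hra : Real.sqrt xi ≤ ‖ra K X‖ := by
    have hn : ‖ra K X‖ ^ 2 = (X ^ 2 + (K / X) ^ 2) / 2 := by
      rw [← Complex.normSq_eq_norm_sq]
      unfold ra
      rw [Complex.normSq_apply]
      simp
      ring
    have h6 : xi ≤ ‖ra K X‖ ^ 2 := by
      rw [hn]
      have : t ^ 2 ≤ X ^ 2 := pow_le_pow_left₀ ht0 htX 2
      have h7 : 0 ≤ (K / X) ^ 2 := by positivity
      nlinarith
    rw [show Real.sqrt xi = Real.sqrt xi from rfl]
    exact Real.sqrt_le_iff.mpr ⟨norm_nonneg _, h6⟩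
  -- the dual sum
  set DD : ℂ := ∑' mu : ℕ, EE K X ((mu : ℝ) + 1) with hDD
  set A : ℝ := K ^ (3 / 2 : ℝ) / Real.sqrt xi with hA
  have hKp : 0 < K ^ (3 / 2 : ℝ) := Real.rpow_pos_of_pos hK0 _
  have hA0 : 0 < A := by positivity
  have hA4 : A ^ 4 = K ^ 6 / xi ^ 2 := by
    rw [hA, div_pow]
    congr 1
    · rw [← Real.rpow_natCast (K ^ (3 / 2 : ℝ)) 4, ← Real.rpow_mul hK0.le,
        ← Real.rpow_natCast K 6]
      norm_num
    · have : Real.sqrt xi ^ 4 = (Real.sqrt xi ^ 2) ^ 2 := by ring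
      rw [this, Real.sq_sqrt hxi0.le]
  have hA1 : 1 ≤ 2 * A := by
    have h6 : Real.sqrt xi ≤ 2 * K ^ (3 / 2 : ℝ) := by
      apply Real.sqrt_le_iff.mpr
      refine ⟨by positivity, ?_⟩
      have : (2 * K ^ (3 / 2 : ℝ)) ^ 2 = 4 * K ^ 3 := by
        rw [mul_pow, ← Real.rpow_natCast (K ^ (3 / 2 : ℝ)) 2, ← Real.rpow_mul hK0.le,
          ← Real.rpow_natCast K 3]
        norm_num
      rw [this]
      nlinarith [pow_pos hK0 3]
    rw [hA, ← mul_div_assoc, le_div_iff₀ hsx]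
    linarith
  have hSSb : ‖SS‖ ≤ A * (‖DD‖ + 2) := by
    have h6 : ‖ra K X * ((K ^ (-(3 / 2) : ℝ) : ℝ) : ℂ) * SS‖ ≤ ‖DD‖ + 2 := by
      calc ‖ra K X * ((K ^ (-(3 / 2) : ℝ) : ℝ) : ℂ) * SS‖
          = ‖(ra K X * ((K ^ (-(3 / 2) : ℝ) : ℝ) : ℂ) * SS - DD) + DD‖ := by congr 1; ring
        _ ≤ ‖ra K X * ((K ^ (-(3 / 2) : ℝ) : ℝ) : ℂ) * SS - DD‖ + ‖DD‖ := norm_add_le _ _
        _ ≤ ‖DD‖ + 2 := by linarith
    rw [norm_mul, norm_mul, Complex.norm_real, Real.norm_of_nonneg (by positivity)] at h6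
    have h7 : Real.sqrt xi * K ^ (-(3 / 2) : ℝ) * ‖SS‖ ≤ ‖ra K X‖ * K ^ (-(3 / 2) : ℝ) * ‖SS‖ := by
      apply mul_le_mul_of_nonneg_right _ (norm_nonneg _)
      exact mul_le_mul_of_nonneg_right hra (by positivity)
    have h8 : A * (Real.sqrt xi * K ^ (-(3 / 2) : ℝ) * ‖SS‖) = ‖SS‖ := by
      rw [hA, Real.rpow_neg hK0.le]
      field_simp
    calc ‖SS‖ = A * (Real.sqrt xi * K ^ (-(3 / 2) : ℝ) * ‖SS‖) := h8.symm
      _ ≤ A * (‖DD‖ + 2) := mul_le_mul_of_nonneg_left (h7.trans h6) hA0.le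
  -- split the dual sum
  set J : ℕ := 2 * k + 4 with hJ
  set S0 : ℂ := ∑ m ∈ Finset.Ico (1 : ℕ) (2 ^ J), EE K X (m : ℝ) with hS0
  have hM : 1 ≤ 2 ^ J := Nat.one_le_two_pow
  have hMr : ((2 ^ J : ℕ) : ℝ) = 16 * K ^ 2 := by
    push_cast
    rw [hJ, hK, pow_add, pow_mul']; norm_num; ring
  have hDDb : ‖DD‖ ≤ ‖S0‖ + CT := by
    have hs : Summable (fun mu : ℕ => EE K X ((mu : ℝ) + 1)) := hEs.of_norm
    have hsplit := hs.sum_add_tsum_nat_add (2 ^ J - 1)
    have hS0' : S0 = ∑ n ∈ Finset.range (2 ^ J - 1), EE K X ((n : ℝ) + 1) := by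
      rw [hS0, Finset.sum_Ico_eq_sum_range]
      apply Finset.sum_congr rfl
      intro i _
      push_cast
      rw [add_comm (1 : ℝ) (i : ℝ)]
    rw [hDD, ← hsplit, ← hS0']
    refine (norm_add_le _ _).trans ?_
    have : ‖∑' n : ℕ, EE K X (((n + (2 ^ J - 1) : ℕ) : ℝ) + 1)‖ ≤ CT := by
      apply tsum_of_norm_bounded hCTs.hasSum
      intro n
      have hcast : ((n + (2 ^ J - 1) : ℕ) : ℝ) + 1 = (n : ℝ) + 16 * K ^ 2 := by
        have : n + (2 ^ J - 1) + 1 = n + 2 ^ J := by omega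
        have h9 : ((n + (2 ^ J - 1) : ℕ) : ℝ) + 1 = ((n + (2 ^ J - 1) + 1 : ℕ) : ℝ) := by push_cast; ring
        rw [h9, this, Nat.cast_add, hMr]
      rw [hcast]
      have hfar := EE_far K X xi ((n : ℝ) + 16 * K ^ 2) hK1 hX0 hxi0 hxi2 hXt'
        (by have : (0 : ℝ) ≤ n := Nat.cast_nonneg n; linarith)
      refine hfar.trans ?_
      have hn0 : (0 : ℝ) ≤ n := Nat.cast_nonneg n
      apply div_le_div_of_nonneg_left (by norm_num) (by positivity)
      apply pow_le_pow_left₀ (by positivity)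
      nlinarith
    linarith
  -- block sums
  set c : ℕ → ℝ := fun j => Real.exp (-(K * Real.sqrt ((2 : ℝ) ^ j) / Real.sqrt xi
        + Real.sqrt xi / (K * Real.sqrt ((2 : ℝ) ^ j)))) with hc
  set P : ℕ → ℝ := fun j => (Bmax sqf j t) ^ (1 / 4 : ℝ) with hP
  have hP0 : ∀ j, 0 ≤ P j := fun j => Real.rpow_nonneg (Bmax_nonneg _ _ _) _
  have hP4 : ∀ j, P j ^ 4 = Bmax sqf j t := by
    intro j
    rw [hP]
    simp only
    rw [← Real.rpow_natCast ((Bmax sqf j t) ^ (1 / 4 : ℝ)) 4, ← Real.rpow_mul (Bmax_nonneg _ _ _)]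
    norm_num
  have hc0 : ∀ j, 0 ≤ c j := fun j => (Real.exp_pos _).le
  have hblk : ∀ j, ‖∑ m ∈ blk j, EE K X (m : ℝ)‖ ≤ CW * (c j * P j) := by
    intro j
    have hab := h4 j (fun m => EE K X m * e (-(t * Real.sqrt m))) (fun m => e (t * sqf m)) (P j) (by
      intro n hn
      have hmx := h3 sqf j n t hn
      rw [← hP4 j] at hmx
      exact le_of_pow_le_pow_left₀ (by norm_num) (hP0 j) hmx)
    have hw := hW K xi j hK1 hxi1 hxi2
    rw [← ht, ← hX] at hw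
    have heq : ∑ m ∈ blk j, EE K X (m : ℝ)
        = ∑ m ∈ blk j, (EE K X m * e (-(t * Real.sqrt m))) * e (t * sqf m) := by
      apply Finset.sum_congr rfl
      intro m _
      rw [mul_assoc, ← e_add]
      unfold sqf
      rw [neg_add_cancel, e_zero, mul_one]
    rw [heq]
    refine hab.trans ?_
    calc P j * BVn (fun m => EE K X m * e (-(t * Real.sqrt m))) j ≤ P j * (CW * c j) :=
          mul_le_mul_of_nonneg_left hw (hP0 j)
      _ = CW * (c j * P j) := by ring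
  have hS0b : ‖S0‖ ≤ CW * ∑ j ∈ Finset.range J, c j * P j := by
    rw [hS0, sum_blk, Finset.mul_sum]
    exact (norm_sum_le _ _).trans (Finset.sum_le_sum (fun j _ => hblk j))
  -- sum of the c j
  have hcs : ∑ j ∈ Finset.range J, c j ≤ 6 := by
    have hs2 : (1.41 : ℝ) < Real.sqrt 2 := by
      rw [Real.lt_sqrt (by norm_num)]; norm_num
    have hs2' : Real.sqrt 2 < 1.42 := by
      rw [Real.sqrt_lt' (by norm_num)]; norm_num
    have hg := sum_exp_geom (K / Real.sqrt xi) (Real.sqrt 2) (by positivity) (by linarith) J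
    have hce : ∀ j, c j = Real.exp (-(K / Real.sqrt xi * Real.sqrt 2 ^ j
        + 1 / (K / Real.sqrt xi * Real.sqrt 2 ^ j))) := by
      intro j
      rw [hc]
      simp only
      have hsj : Real.sqrt ((2 : ℝ) ^ j) = Real.sqrt 2 ^ j := by
        rw [Real.sqrt_eq_rpow, Real.sqrt_eq_rpow, ← Real.rpow_natCast 2 j, ← Real.rpow_mul (by norm_num),
          ← Real.rpow_natCast ((2 : ℝ) ^ (1 / 2 : ℝ)) j, ← Real.rpow_mul (by norm_num)]
        ring_nf
      rw [hsj]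
      congr 1
      have : Real.sqrt 2 ^ j ≠ 0 := by positivity
      field_simp
    simp_rw [hce]
    refine hg.trans ?_
    rw [div_le_iff₀ (by linarith)]
    nlinarith
  have hcs0 : 0 ≤ ∑ j ∈ Finset.range J, c j := Finset.sum_nonneg (fun j _ => hc0 j)
  have hho := hoelder4 J c P hc0 hP0
  set B : ℝ := ∑ j ∈ Finset.range J, c j * Bmax sqf j t with hB
  have hB0 : 0 ≤ B := Finset.sum_nonneg (fun j _ => mul_nonneg (hc0 j) (Bmax_nonneg _ _ _))
  have hBe : ∑ j ∈ Finset.range J, c j * P j ^ 4 = B := by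
    rw [hB]; apply Finset.sum_congr rfl; intro j _; rw [hP4]
  rw [hBe] at hho
  have hS04 : ‖S0‖ ^ 4 ≤ CW ^ 4 * 6 ^ 3 * B := by
    calc ‖S0‖ ^ 4 ≤ (CW * ∑ j ∈ Finset.range J, c j * P j) ^ 4 :=
          pow_le_pow_left₀ (norm_nonneg _) hS0b 4
      _ = CW ^ 4 * (∑ j ∈ Finset.range J, c j * P j) ^ 4 := by ring
      _ ≤ CW ^ 4 * ((∑ j ∈ Finset.range J, c j) ^ 3 * B) :=
          mul_le_mul_of_nonneg_left hho (by positivity)
      _ ≤ CW ^ 4 * (6 ^ 3 * B) := by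
          apply mul_le_mul_of_nonneg_left _ (by positivity)
          apply mul_le_mul_of_nonneg_right _ hB0
          exact pow_le_pow_left₀ hcs0 hcs 3
      _ = CW ^ 4 * 6 ^ 3 * B := by ring
  -- final assembly
  have hfin : ‖SB k xi‖ ≤ A * (‖S0‖ + (CT + 4)) := by
    have h6 : ‖SB k xi‖ ≤ ‖SS‖ + 1 := by
      calc ‖SB k xi‖ = ‖SS - (SS - SB k xi)‖ := by congr 1; ring
        _ ≤ ‖SS‖ + ‖SS - SB k xi‖ := norm_sub_le _ _
        _ ≤ ‖SS‖ + 1 := by linarith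
    have h7 : ‖SS‖ ≤ A * (‖S0‖ + CT + 2) := by
      refine hSSb.trans ?_
      apply mul_le_mul_of_nonneg_left _ hA0.le
      linarith
    nlinarith [h6, h7, hA1]
  have hpow : ∀ x y : ℝ, 0 ≤ x → 0 ≤ y → (x + y) ^ 4 ≤ 8 * (x ^ 4 + y ^ 4) := by
    intro x y hx hy
    have h6 : (x + y) ^ 2 ≤ 2 * (x ^ 2 + y ^ 2) := by nlinarith [sq_nonneg (x - y)]
    have h7 : ((x + y) ^ 2) ^ 2 ≤ (2 * (x ^ 2 + y ^ 2)) ^ 2 := pow_le_pow_left₀ (sq_nonneg _) h6 2
    nlinarith [sq_nonneg (x ^ 2 - y ^ 2), h7]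
  calc ‖SB k xi‖ ^ 4 ≤ (A * (‖S0‖ + (CT + 4))) ^ 4 := pow_le_pow_left₀ (norm_nonneg _) hfin 4
    _ = A ^ 4 * (‖S0‖ + (CT + 4)) ^ 4 := by ring
    _ ≤ A ^ 4 * (8 * (‖S0‖ ^ 4 + (CT + 4) ^ 4)) :=
        mul_le_mul_of_nonneg_left (hpow _ _ (norm_nonneg _) (by positivity)) (by positivity)
    _ ≤ A ^ 4 * (8 * (CW ^ 4 * 6 ^ 3 * B + (CT + 4) ^ 4)) := by
        apply mul_le_mul_of_nonneg_left _ (by positivity)
        linarith
    _ ≤ A ^ 4 * (8 * ((CT + 4) ^ 4 + CW ^ 4 * 6 ^ 3) * (1 + B)) := by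
        apply mul_le_mul_of_nonneg_left _ (by positivity)
        have h6 : 0 ≤ (CT + 4) ^ 4 * B := by positivity
        have h7 : 0 ≤ CW ^ 4 * 6 ^ 3 := by positivity
        nlinarith [h6, h7]
    _ = 8 * ((CT + 4) ^ 4 + CW ^ 4 * 6 ^ 3) * (K ^ 6 / xi ^ 2) * (1 + B) := by
        rw [hA4]; ring

end Pool.Agent.Lib.MP_3ee548_nt.RS.H02
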